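import Mathlib
import Pool.Agent.W2helper47.VK.Stm

/-!
# Piece A of the squad of MP_442c46_al: the Euler inequality and the potentials
-/

set_option autoImplicit false
set_option linter.unusedSectionVars false
set_option linter.unusedVariables false

namespace Pool.Agent.W2helper47.VK

open Finset Module

namespace PA

variable {D P : Type} [Fintype D] [Fintype P] [DecidableEq P]
  {φ α : Equiv.Perm D} {p : D → P} {σ : D → ℝ}

/-- shifts do not change sums -/
lemma sum_shift (φ : Equiv.Perm D) (f : D → ℝ) : ∑ d, f (φ d) = ∑ d, f d :=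
  Equiv.sum_comp φ f

lemma orth (hp : ∀ d, p (φ d) = p d) (hα : ∀ d, α (α d) = d) (u : D → ℝ)
    (hu : ∀ d, u (φ d) = u (α d)) (s : P → ℝ) :
    ∑ d, (u (α d) - u d) * (s (p d) - s (p (α d))) = 0 := by
  have h1 : ∑ d, (u (α d) - u d) * s (p d) = 0 := by
    have h2 : ∑ d, (u (α d) - u d) * s (p d) =
        ∑ d, u (φ d) * s (p (φ d)) - ∑ d, u d * s (p d) := by
      rw [← Finset.sum_sub_distrib]
      refine Finset.sum_congr rfl fun d _ => ?_
      rw [hp, hu]; ring
    rw [h2, sum_shift φ (fun d => u d * s (p d)), sub_self]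
  have h3 : ∑ d, (u (α d) - u d) * s (p (α d)) = 0 := by
    have h4 := sum_shift α (fun d => (u (α d) - u d) * s (p d))
    rw [h1] at h4
    have h5 : ∑ d, (u (α d) - u d) * s (p (α d)) =
        -∑ d, (u (α (α d)) - u (α d)) * s (p (α d)) := by
      rw [← Finset.sum_neg_distrib]
      refine Finset.sum_congr rfl fun d _ => ?_
      rw [hα]; ring
    rw [h5, h4, neg_zero]
  have h6 : ∑ d, (u (α d) - u d) * (s (p d) - s (p (α d))) =
      ∑ d, (u (α d) - u d) * s (p d) - ∑ d, (u (α d) - u d) * s (p (α d)) := by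
    rw [← Finset.sum_sub_distrib]
    exact Finset.sum_congr rfl fun d _ => by ring
  rw [h6, h1, h3, sub_zero]

lemma zero_of_sq {f : D → ℝ} (h : ∑ d, f d * f d = 0) (d : D) : f d = 0 := by
  have h1 := (Finset.sum_eq_zero_iff_of_nonneg (fun i _ => mul_self_nonneg (f i))).1 h d
    (Finset.mem_univ d)
  exact mul_self_eq_zero.1 h1

/-- the antisymmetric functions -/
def CC (α : Equiv.Perm D) : Submodule ℝ (D → ℝ) where
  carrier := {c | ∀ d, c (α d) = -c d}
  zero_mem' := fun d => by simp
  add_mem' := fun {a b} ha hb d => by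
    have h1 := ha d
    have h2 := hb d
    simp only [Pi.add_apply, h1, h2]; ring
  smul_mem' := fun r a ha d => by
    have h1 := ha d
    simp only [Pi.smul_apply, h1, smul_eq_mul]; ring

lemma mem_CC (c : D → ℝ) : c ∈ CC α ↔ ∀ d, c (α d) = -c d := Iff.rfl

lemma finrank_CC (hα : ∀ d, α (α d) = d) (hσ : ∀ d, σ (α d) = -σ d) (hσ0 : ∀ d, σ d ≠ 0) :
    2 * finrank ℝ (CC α) ≤ Fintype.card D := by
  let L : (CC α × CC α) →ₗ[ℝ] (D → ℝ) :=
    { toFun := fun x d => (x.1 : D → ℝ) d + σ d * (x.2 : D → ℝ) d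
      map_add' := fun x y => by
        ext d
        simp only [Prod.fst_add, Submodule.coe_add, Pi.add_apply, Prod.snd_add]
        ring
      map_smul' := fun r x => by
        ext d
        simp only [Prod.smul_fst, Prod.smul_snd, Submodule.coe_smul, Pi.smul_apply, smul_eq_mul,
          RingHom.id_apply]
        ring }
  have hinj : Function.Injective L := by
    rw [← LinearMap.ker_eq_bot, eq_bot_iff]
    rintro ⟨f, g⟩ hfg
    rw [LinearMap.mem_ker] at hfg
    have h1 : ∀ d, (f : D → ℝ) d + σ d * (g : D → ℝ) d = 0 := fun d => congrFun hfg d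
    have h2 : ∀ d, (f : D → ℝ) d = 0 ∧ (g : D → ℝ) d = 0 := by
      intro d
      have h3 := h1 d
      have h4 := h1 (α d)
      rw [f.2 d, g.2 d, hσ d] at h4
      have h5 : (f : D → ℝ) d = 0 := by linarith
      rw [h5, zero_add] at h3
      exact ⟨h5, (mul_eq_zero.1 h3).resolve_left (hσ0 d)⟩
    rw [Submodule.mem_bot, Prod.mk_eq_zero]
    exact ⟨Subtype.ext (funext fun d => (h2 d).1), Subtype.ext (funext fun d => (h2 d).2)⟩
  have h1 := LinearMap.finrank_le_finrank_of_injective hinj
  rw [Module.finrank_prod, Module.finrank_fintype_fun_eq_card] at h1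
  omega

/-- the vertices -/
abbrev QQ (φ α : Equiv.Perm D) : Type := Quotient (Equiv.Perm.SameCycle.setoid (α.trans φ))

lemma mk_nu (d : D) : (Quotient.mk _ (φ (α d)) : QQ φ α) = Quotient.mk _ d := by
  apply Quotient.sound
  change Equiv.Perm.SameCycle (α.trans φ) (φ (α d)) d
  refine (Equiv.Perm.SameCycle.symm ?_)
  exact ⟨1, by rw [zpow_one]; rfl⟩

lemma mk_phi (hα : ∀ d, α (α d) = d) (d : D) :
    (Quotient.mk _ (φ d) : QQ φ α) = Quotient.mk _ (α d) := by
  have h := mk_nu (φ := φ) (α := α) (α d)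
  rw [hα] at h
  exact h

/-- the map `T` -/
def TT (φ α : Equiv.Perm D) (p : D → P) : ((QQ φ α → ℝ) × (P → ℝ)) →ₗ[ℝ] (D → ℝ) where
  toFun x d := (x.1 (Quotient.mk _ (α d)) - x.1 (Quotient.mk _ d)) + (x.2 (p d) - x.2 (p (α d)))
  map_add' x y := by
    ext d
    simp only [Prod.fst_add, Pi.add_apply, Prod.snd_add]
    ring
  map_smul' r x := by
    ext d
    simp only [Prod.smul_fst, Prod.smul_snd, Pi.smul_apply, smul_eq_mul, RingHom.id_apply]
    ring

lemma TT_apply (x : (QQ φ α → ℝ) × (P → ℝ)) (d : D) : TT φ α p x d =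
    (x.1 (Quotient.mk _ (α d)) - x.1 (Quotient.mk _ d)) + (x.2 (p d) - x.2 (p (α d))) := rfl

lemma range_le (hα : ∀ d, α (α d) = d) : LinearMap.range (TT φ α p) ≤ CC α := by
  rintro _ ⟨x, rfl⟩ d
  rw [TT_apply, TT_apply, hα]
  ring

lemma ker_zero (hp : ∀ d, p (φ d) = p d) (hα : ∀ d, α (α d) = d)
    {x : (QQ φ α → ℝ) × (P → ℝ)} (hx : TT φ α p x = 0) (d : D) :
    x.1 (Quotient.mk _ (α d)) = x.1 (Quotient.mk _ d) ∧ x.2 (p (α d)) = x.2 (p d) := by
  have h0 : ∀ d, (x.1 (Quotient.mk _ (α d)) - x.1 (Quotient.mk _ d)) +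
      (x.2 (p d) - x.2 (p (α d))) = 0 := fun d => congrFun hx d
  have ho := orth hp hα (fun d => x.1 (Quotient.mk _ d)) (fun d => by
    show x.1 (Quotient.mk _ (φ d)) = x.1 (Quotient.mk _ (α d))
    rw [mk_phi hα]) x.2
  have h1 : ∑ d, (x.1 (Quotient.mk _ (α d)) - x.1 (Quotient.mk _ d)) *
      (x.1 (Quotient.mk _ (α d)) - x.1 (Quotient.mk _ d)) = 0 := by
    have h2 : ∑ d, (x.1 (Quotient.mk _ (α d)) - x.1 (Quotient.mk _ d)) *
        (x.1 (Quotient.mk _ (α d)) - x.1 (Quotient.mk _ d)) =
        -∑ d, (x.1 (Quotient.mk _ (α d)) - x.1 (Quotient.mk _ d)) *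
          (x.2 (p d) - x.2 (p (α d))) := by
      rw [← Finset.sum_neg_distrib]
      refine Finset.sum_congr rfl fun d _ => ?_
      have := h0 d
      linear_combination (x.1 (Quotient.mk _ (α d)) - x.1 (Quotient.mk _ d)) * this
    rw [h2]
    show -∑ d, (x.1 (Quotient.mk _ (α d)) - x.1 (Quotient.mk _ d)) *
          (x.2 (p d) - x.2 (p (α d))) = 0
    rw [neg_eq_zero]
    exact ho
  have h3 := zero_of_sq h1 d
  have h4 := h0 d
  constructor
  · linarith
  · linarith

lemma const_of {β : Type} [Nonempty D]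
    (hconn : ∀ S : Set D, S.Nonempty → (∀ d ∈ S, α d ∈ S ∧ φ d ∈ S) → S = Set.univ)
    (f : D → β) (h1 : ∀ d, f (α d) = f d) (h2 : ∀ d, f (φ d) = f d) (d d0 : D) : f d = f d0 := by
  have h := hconn {d | f d = f d0} ⟨d0, rfl⟩ (fun d hd => ⟨by
    show f (α d) = f d0
    rw [h1]; exact hd, by
    show f (φ d) = f d0
    rw [h2]; exact hd⟩)
  have : d ∈ ({d | f d = f d0} : Set D) := by rw [h]; trivial
  exact this

end PA

open PA in
theorem PieceA_proof : PieceA := by
  intro D P _ _ _ _ φ α p σ hsurj hp hα hσ hσ0 hconn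
  classical
  have hfin : Fintype (QQ φ α) := Fintype.ofFinite _
  obtain ⟨d0⟩ := (inferInstance : Nonempty D)
  -- the kernel
  have hker : finrank ℝ (LinearMap.ker (TT φ α p)) ≤ 2 := by
    let L : LinearMap.ker (TT φ α p) →ₗ[ℝ] (ℝ × ℝ) :=
      { toFun := fun x => ((x : (QQ φ α → ℝ) × (P → ℝ)).1 (Quotient.mk _ d0),
          (x : (QQ φ α → ℝ) × (P → ℝ)).2 (p d0))
        map_add' := fun x y => rfl
        map_smul' := fun r x => rfl }
    have hinj : Function.Injective L := by
      rw [← LinearMap.ker_eq_bot, eq_bot_iff]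
      rintro ⟨⟨u, s⟩, hx⟩ hL
      rw [LinearMap.mem_ker] at hL hx
      have h1 := ker_zero hp hα hx
      have hu : ∀ d, u (Quotient.mk _ d) = u (Quotient.mk _ d0) := by
        intro d
        exact const_of hconn (fun d => u (Quotient.mk _ d)) (fun d => (h1 d).1) (fun d => by
          show u (Quotient.mk _ (φ d)) = u (Quotient.mk _ d)
          rw [mk_phi hα]; exact (h1 d).1) d d0
      have hs : ∀ d, s (p d) = s (p d0) := by
        intro d
        exact const_of hconn (fun d => s (p d)) (fun d => (h1 d).2) (fun d => by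
          show s (p (φ d)) = s (p d)
          rw [hp]) d d0
      have h2 : u (Quotient.mk _ d0) = 0 := congrArg Prod.fst hL
      have h3 : s (p d0) = 0 := congrArg Prod.snd hL
      rw [Submodule.mem_bot]
      apply Subtype.ext
      show (u, s) = 0
      rw [Prod.mk_eq_zero]
      constructor
      · funext q
        induction q using Quotient.inductionOn with
        | _ d => rw [hu, h2]; rfl
      · funext o
        obtain ⟨d, rfl⟩ := hsurj o
        rw [hs, h3]; rfl
    have h1 := LinearMap.finrank_le_finrank_of_injective hinj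
    rw [Module.finrank_prod, Module.finrank_self] at h1
    exact h1
  have hrn := LinearMap.finrank_range_add_finrank_ker (TT φ α p)
  rw [Module.finrank_prod, Module.finrank_fintype_fun_eq_card, Module.finrank_fintype_fun_eq_card]
    at hrn
  have hcard : Nat.card (Quotient (Equiv.Perm.SameCycle.setoid (α.trans φ))) =
      Fintype.card (QQ φ α) := Nat.card_eq_fintype_card
  have hle := Submodule.finrank_mono (range_le (φ := φ) (p := p) hα)
  have hC := finrank_CC hα hσ hσ0
  rw [hcard]
  refine ⟨by omega, fun heq c hc hsum => ?_⟩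
  have hrange : LinearMap.range (TT φ α p) = CC α :=
    Submodule.eq_of_le_of_finrank_eq (range_le hα) (by omega)
  obtain ⟨⟨u, s⟩, hus⟩ : c ∈ LinearMap.range (TT φ α p) := by rw [hrange]; exact hc
  have hcd : ∀ d, c d = (u (Quotient.mk _ (α d)) - u (Quotient.mk _ d)) +
      (s (p d) - s (p (α d))) := fun d => (congrFun hus d).symm
  -- the sums over the fibres
  have hfib : ∀ o : P, ∑ d ∈ Finset.univ.filter (fun d => p d = o),
      (s (p d) - s (p (α d))) = 0 := by
    intro o
    have h1 : ∑ d ∈ Finset.univ.filter (fun d => p d = o),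
        (u (Quotient.mk _ (α d)) - u (Quotient.mk _ d)) = 0 := by
      rw [Finset.sum_filter]
      have h2 : ∑ d, (if p d = o then (u (Quotient.mk _ (α d)) - u (Quotient.mk _ d)) else 0) =
          ∑ d, (if p (φ d) = o then u (Quotient.mk _ (φ d)) else 0) -
            ∑ d, (if p d = o then u (Quotient.mk _ d) else 0) := by
        rw [← Finset.sum_sub_distrib]
        refine Finset.sum_congr rfl fun d _ => ?_
        rw [hp, mk_phi hα]
        split_ifs <;> ring
      rw [h2, sum_shift φ (fun d => if p d = o then u (Quotient.mk _ d) else 0), sub_self]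
    have h3 := hsum o
    have h4 : ∑ d ∈ Finset.univ.filter (fun d => p d = o), c d =
        ∑ d ∈ Finset.univ.filter (fun d => p d = o),
          (u (Quotient.mk _ (α d)) - u (Quotient.mk _ d)) +
        ∑ d ∈ Finset.univ.filter (fun d => p d = o), (s (p d) - s (p (α d))) := by
      rw [← Finset.sum_add_distrib]
      exact Finset.sum_congr rfl fun d _ => hcd d
    rw [h3, h1, zero_add] at h4
    exact h4.symm
  have h5 : ∑ d, s (p d) * (s (p d) - s (p (α d))) = 0 := by
    rw [← Finset.sum_fiberwise Finset.univ p (fun d => s (p d) * (s (p d) - s (p (α d))))]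
    refine Finset.sum_eq_zero fun o _ => ?_
    have : ∑ d ∈ Finset.univ.filter (fun d => p d = o), s (p d) * (s (p d) - s (p (α d))) =
        s o * ∑ d ∈ Finset.univ.filter (fun d => p d = o), (s (p d) - s (p (α d))) := by
      rw [Finset.mul_sum]
      refine Finset.sum_congr rfl fun d hd => ?_
      rw [Finset.mem_filter] at hd
      rw [hd.2]
    rw [this, hfib o, mul_zero]
  have h6 : ∑ d, s (p (α d)) * (s (p d) - s (p (α d))) = 0 := by
    have h7 := sum_shift α (fun d => s (p d) * (s (p d) - s (p (α d))))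
    rw [h5] at h7
    have h8 : ∑ d, s (p (α d)) * (s (p d) - s (p (α d))) =
        -∑ d, s (p (α d)) * (s (p (α d)) - s (p (α (α d)))) := by
      rw [← Finset.sum_neg_distrib]
      refine Finset.sum_congr rfl fun d _ => ?_
      rw [hα]; ring
    rw [h8, h7, neg_zero]
  have h9 : ∑ d, (s (p d) - s (p (α d))) * (s (p d) - s (p (α d))) = 0 := by
    have : ∑ d, (s (p d) - s (p (α d))) * (s (p d) - s (p (α d))) =
        ∑ d, s (p d) * (s (p d) - s (p (α d))) - ∑ d, s (p (α d)) * (s (p d) - s (p (α d))) := by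
      rw [← Finset.sum_sub_distrib]
      exact Finset.sum_congr rfl fun d _ => by ring
    rw [this, h5, h6, sub_zero]
  refine ⟨fun d => u (Quotient.mk _ d), fun d => ?_⟩
  have h10 := zero_of_sq h9 d
  have h11 := hcd d
  show u (Quotient.mk _ (φ d)) = u (Quotient.mk _ d) + c d ∧
    u (Quotient.mk _ (α d)) = u (Quotient.mk _ (φ d))
  rw [mk_phi hα, h11, h10]
  constructor
  · ring
  · rfl

end Pool.Agent.W2helper47.VK
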