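import Mathlib
import Pool.Agent.W2helper47.VK.Stm

/-!
# Piece E of the squad of MP_442c46_al: the family and the final statement
-/

set_option autoImplicit false
set_option linter.unusedSectionVars false
set_option linter.unusedVariables false

namespace Pool.Agent.W2helper47.VK

open Finset Filter Topology
open scoped ENNReal

namespace PE

lemma red_rep (a : Letter) (L : Word) (hL : FreeGroup.IsReduced L)
    (h : ∀ b ∈ L.head?, a.1 = b.1 → a.2 = b.2) :
    ∀ m : ℕ, FreeGroup.IsReduced (List.replicate m a ++ L) := by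
  intro m
  induction m with
  | zero => simpa using hL
  | succ m ih =>
    rw [List.replicate_succ, List.cons_append]
    cases m with
    | zero =>
      simp only [List.replicate_zero, List.nil_append]
      cases L with
      | nil => exact FreeGroup.IsReduced.singleton
      | cons b L =>
        rw [FreeGroup.isReduced_cons_cons]
        exact ⟨h b (by simp), hL⟩
    | succ m =>
      rw [List.replicate_succ, List.cons_append]
      rw [List.replicate_succ, List.cons_append] at ih
      rw [FreeGroup.isReduced_cons_cons]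
      exact ⟨fun _ => rfl, ih⟩

lemma bw_cyc {n : ℕ} (hn : 1 ≤ n) : FreeGroup.IsCyclicallyReduced (bw n) := by
  obtain ⟨m, rfl⟩ : ∃ m, n = m + 1 := ⟨n - 1, by omega⟩
  constructor
  · unfold bw
    refine red_rep _ _ ?_ ?_ _
    · refine red_rep _ _ ?_ ?_ _
      · refine red_rep _ _ ?_ ?_ _
        · refine red_rep _ _ ?_ ?_ _
          · refine red_rep _ _ ?_ ?_ _
            · have := red_rep (Gen.y, true) [] FreeGroup.IsReduced.nil (by simp) (m + 1)
              rwa [List.append_nil] at this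
            · simp [List.replicate_succ]
          · simp [List.replicate_succ]
        · simp [List.replicate_succ, Nat.mul_succ]
      · simp [List.replicate_succ]
    · simp [List.replicate_succ]
  · intro a ha b hb
    unfold bw at ha hb
    have h2 : 2 * (m + 1) = (2 * m + 1) + 1 := by ring
    rw [h2, List.replicate_succ] at hb
    simp at hb
    simp [List.getLast?_append, List.getLast?_replicate] at ha
    subst ha; subst hb
    simp

lemma card_FF (n : ℕ) : Fintype.card (FF n) = 2 * n ^ 3 + 2 * n ^ 2 := by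
  rw [Fintype.card_sigma]
  have h1 : ∀ i : Fin n, Fintype.card (Fin n × Fin (n + 2 * (i : ℕ) + 3)) =
      n * (n + 3) + 2 * n * i := by
    intro i
    rw [Fintype.card_prod, Fintype.card_fin, Fintype.card_fin]; ring
  rw [Finset.sum_congr rfl fun i _ => h1 i, Finset.sum_add_distrib,
    Finset.sum_const, Finset.card_univ, Fintype.card_fin, smul_eq_mul]
  have h0 : ∑ i : Fin n, 2 * n * (i : ℕ) = 2 * n * ∑ i : Fin n, (i : ℕ) := by rw [Finset.mul_sum]
  rw [h0]
  have h2 : ∑ i : Fin n, (i : ℕ) = ∑ i ∈ Finset.range n, i :=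
    (Finset.sum_range (fun i => i)).symm
  have h3 := Finset.sum_range_id_mul_two n
  rw [h2]
  cases n with
  | zero => simp
  | succ m =>
    rw [Nat.add_sub_cancel] at h3
    have h4 : 2 * (m + 1) * ∑ i ∈ Finset.range (m + 1), i = (m + 1) * ((m + 1) * m) := by
      rw [← h3]; ring
    rw [h4]; ring

lemma sum_FF (n : ℕ) (f : ℕ → ℕ → ℕ → ℝ) :
    ∑ x : FF n, f x.1 x.2.1 x.2.2 = ∑ i ∈ Finset.range n, ∑ k ∈ Finset.range n,
      ∑ T ∈ Finset.range (n + 2 * i + 3), f i k T := by
  rw [Fintype.sum_sigma, Finset.sum_range]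
  refine Finset.sum_congr rfl fun i _ => ?_
  rw [Fintype.sum_prod_type, Finset.sum_range]
  refine Finset.sum_congr rfl fun k _ => ?_
  rw [Finset.sum_range]

lemma len_rel {L : Word} (h : L ∈ relators) : 4 ≤ L.length := by
  rcases h with h | h | h | h | h | h <;> rw [h] <;> simp [rxy, rxz, ryz, FreeGroup.invRev]

end PE

open PE in
theorem goodFamily_of : AreaLower → Explicit → EnergyBound → SumBound → MassBound →
    GoodFamily := by
  intro hA hX hE ⟨C, hC, hS⟩ hM
  refine ⟨60 * C, by positivity, fun n hn => ?_⟩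
  obtain ⟨D, e, he⟩ := hX n hn
  have hcard : Fintype.card D.F = 2 * n ^ 3 + 2 * n ^ 2 := by
    rw [Fintype.card_congr e, card_FF]
  have hn1 : (1 : ℝ) < n := by exact_mod_cast (by omega : 1 < n)
  have hlog : 0 < Real.log n := Real.log_pos hn1
  refine ⟨D, ⟨?_, bw_cyc (by omega), fun D' => ?_⟩, hcard, ?_⟩
  · intro h
    have := congrArg List.length h
    simp [bw] at this
    omega
  · rw [hcard]
    exact hA n (by omega) D'
  · set g : D.F → ℝ := fun f => Real.log (1 + (hF n (e f) : ℝ)) / Real.log n with hg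
    have hen := hE (bw n) D (fun f => hF n (e f)) (Real.log n) hlog he
    have hsum1 : ∑ f, 1 / (1 + (hF n (e f) : ℝ)) ^ 2 =
        ∑ i ∈ Finset.range n, ∑ k ∈ Finset.range n, ∑ T ∈ Finset.range (n + 2 * i + 3),
          1 / (1 + (hh n i k T : ℝ)) ^ 2 := by
      rw [Equiv.sum_comp e (fun x => 1 / (1 + (hF n x : ℝ)) ^ 2)]
      exact sum_FF n (fun i k T => 1 / (1 + (hh n i k T : ℝ)) ^ 2)
    have hsum2 : ∑ f, 4 * g f ^ 2 =
        ∑ i ∈ Finset.range n, ∑ k ∈ Finset.range n, ∑ T ∈ Finset.range (n + 2 * i + 3),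
          4 * (Real.log (1 + (hh n i k T : ℝ)) / Real.log n) ^ 2 := by
      rw [hg]
      rw [Equiv.sum_comp e (fun x => 4 * (Real.log (1 + (hF n x : ℝ)) / Real.log n) ^ 2)]
      exact sum_FF n (fun i k T => 4 * (Real.log (1 + (hh n i k T : ℝ)) / Real.log n) ^ 2)
    have hmass : (n : ℝ) ^ 3 / 3 ≤ D.mass g := by
      calc (n : ℝ) ^ 3 / 3 ≤ ∑ f, 4 * g f ^ 2 := by rw [hsum2]; exact hM n hn
        _ ≤ D.mass g := by
          refine Finset.sum_le_sum fun f _ => ?_
          have h4 : (4 : ℝ) ≤ ((D.rel f).length : ℝ) := by exact_mod_cast len_rel (D.rel_mem f)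
          exact mul_le_mul_of_nonneg_right h4 (sq_nonneg _)
    have hn3 : 0 < (n : ℝ) ^ 3 / 3 := by positivity
    have hg0 : g ≠ 0 := by
      intro h0
      rw [h0] at hmass
      simp [Diagram.mass] at hmass
      have : 0 < (n : ℝ) ^ 3 := by positivity
      linarith
    have hener : D.energy g ≤ 20 / Real.log n ^ 2 * (C * n * Real.log n) := by
      refine hen.trans ?_
      rw [hsum1]
      exact mul_le_mul_of_nonneg_left (hS n hn) (by positivity)
    have hmu : D.mu ≤ ENNReal.ofReal (D.energy g / D.mass g) := iInf₂_le g hg0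
    refine hmu.trans (ENNReal.ofReal_le_ofReal ?_)
    calc D.energy g / D.mass g ≤ (20 / Real.log n ^ 2 * (C * n * Real.log n)) / ((n : ℝ) ^ 3 / 3) :=
          div_le_div₀ (by positivity) hener hn3 hmass
      _ = 60 * C / ((n : ℝ) ^ 2 * Real.log n) := by
          field_simp
          ring

theorem final_of : GoodFamily → Final := by
  intro ⟨C, hC, hG⟩
  have h1 : ∀ N : ℕ, 24 ≤ N →
      Lam N ≤ ENNReal.ofReal (1024 * C / ((N : ℝ) ^ 2 * Real.log N)) := by
    intro N hN
    obtain ⟨m, hm⟩ : ∃ m, m = N / 8 := ⟨_, rfl⟩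
    obtain ⟨D, hmin, hcard, hmu⟩ := hG m (by omega)
    have hm3 : 3 ≤ m := by omega
    have hlen : (bw m).length ≤ N := by
      simp [bw]
      omega
    have hle : Lam N ≤ D.mu := by
      unfold Lam
      exact iInf_le_of_le (bw m) (iInf_le_of_le D (iInf_le_of_le hmin (iInf_le_of_le hlen le_rfl)))
    refine hle.trans (hmu.trans (ENNReal.ofReal_le_ofReal ?_))
    have hmr : (3 : ℝ) ≤ m := by exact_mod_cast hm3
    have hNr : (24 : ℝ) ≤ N := by exact_mod_cast hN
    have hmN : (N : ℝ) / 16 ≤ m := by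
      have : N ≤ 16 * m := by omega
      have h2 : (N : ℝ) ≤ 16 * m := by exact_mod_cast this
      linarith
    have hm4 : N ≤ m ^ 4 := by
      have h2 : N < 8 * (m + 1) := by omega
      have h3 : 27 * m ≤ m ^ 4 := by
        have : m ^ 4 = m ^ 3 * m := by ring
        rw [this]
        have h4 : 3 ^ 3 ≤ m ^ 3 := Nat.pow_le_pow_left hm3 3
        exact Nat.mul_le_mul_right m (by omega)
      omega
    have hlogm : Real.log N / 4 ≤ Real.log m := by
      have h2 : (N : ℝ) ≤ (m : ℝ) ^ 4 := by exact_mod_cast hm4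
      have h3 : Real.log N ≤ Real.log ((m : ℝ) ^ 4) := Real.log_le_log (by linarith) h2
      rw [Real.log_pow] at h3
      push_cast at h3
      linarith
    have hlogN : 0 < Real.log N := Real.log_pos (by linarith)
    have h5 : ((N : ℝ) / 16) ^ 2 * (Real.log N / 4) ≤ (m : ℝ) ^ 2 * Real.log m := by
      have h6 : ((N : ℝ) / 16) ^ 2 ≤ (m : ℝ) ^ 2 := by
        apply pow_le_pow_left₀ (by positivity) hmN
      exact mul_le_mul h6 hlogm (by positivity) (by positivity)
    calc C / ((m : ℝ) ^ 2 * Real.log m) ≤ C / (((N : ℝ) / 16) ^ 2 * (Real.log N / 4)) :=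
          div_le_div_of_nonneg_left hC.le (by positivity) h5
      _ = 1024 * C / ((N : ℝ) ^ 2 * Real.log N) := by
          field_simp
          ring
  have h2 : Tendsto (fun n : ℕ => (n : ℝ≥0∞) ^ 2 * Lam n) atTop (𝓝 0) := by
    have hub : ∀ᶠ n : ℕ in atTop, (n : ℝ≥0∞) ^ 2 * Lam n ≤
        ENNReal.ofReal (1024 * C / Real.log n) := by
      filter_upwards [eventually_ge_atTop 24] with n hn
      have h3 := h1 n hn
      have hnr : (24 : ℝ) ≤ n := by exact_mod_cast hn
      have hlog : 0 < Real.log n := Real.log_pos (by linarith)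
      have e1 : (n : ℝ≥0∞) ^ 2 = ENNReal.ofReal ((n : ℝ) ^ 2) := by
        rw [ENNReal.ofReal_pow (by positivity), ENNReal.ofReal_natCast]
      calc (n : ℝ≥0∞) ^ 2 * Lam n ≤ (n : ℝ≥0∞) ^ 2 *
            ENNReal.ofReal (1024 * C / ((n : ℝ) ^ 2 * Real.log n)) := by gcongr
        _ = ENNReal.ofReal ((n : ℝ) ^ 2 * (1024 * C / ((n : ℝ) ^ 2 * Real.log n))) := by
            rw [e1, ← ENNReal.ofReal_mul (by positivity)]
        _ = ENNReal.ofReal (1024 * C / Real.log n) := by
            congr 1
            field_simp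
    have hlim : Tendsto (fun n : ℕ => ENNReal.ofReal (1024 * C / Real.log n)) atTop (𝓝 0) := by
      have h3 : Tendsto (fun n : ℕ => Real.log (n : ℝ)) atTop atTop :=
        Real.tendsto_log_atTop.comp tendsto_natCast_atTop_atTop
      have h4 : Tendsto (fun n : ℕ => 1024 * C / Real.log (n : ℝ)) atTop (𝓝 0) :=
        h3.const_div_atTop _
      have h5 := ENNReal.tendsto_ofReal h4
      rwa [ENNReal.ofReal_zero] at h5
    exact tendsto_of_tendsto_of_tendsto_of_le_of_le' tendsto_const_nhds hlim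
      (Eventually.of_forall fun _ => zero_le) hub
  refine ⟨⟨1024 * C, by positivity, h1⟩, h2, h2.liminf_eq, ?_⟩
  rintro ⟨c, C', hc, hcC, hev⟩
  have h3 : ∀ᶠ n : ℕ in atTop, ENNReal.ofReal c ≤ (n : ℝ≥0∞) ^ 2 * Lam n := by
    filter_upwards [hev, eventually_ge_atTop 1] with n hn hn1
    have e1 : (n : ℝ≥0∞) ^ 2 = ENNReal.ofReal ((n : ℝ) ^ 2) := by
      rw [ENNReal.ofReal_pow (by positivity), ENNReal.ofReal_natCast]
    have hn0 : (n : ℝ) ≠ 0 := by
      have : n ≠ 0 := by omega
      exact_mod_cast this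
    calc ENNReal.ofReal c = (n : ℝ≥0∞) ^ 2 * ENNReal.ofReal (c / (n : ℝ) ^ 2) := by
          rw [e1, ← ENNReal.ofReal_mul (by positivity)]
          congr 1
          field_simp
      _ ≤ (n : ℝ≥0∞) ^ 2 * Lam n := by gcongr; exact hn.1
  have h4 := ge_of_tendsto h2 h3
  have h5 : 0 < ENNReal.ofReal c := ENNReal.ofReal_pos.2 hc
  exact absurd h4 (not_le.2 h5)

end Pool.Agent.W2helper47.VK
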