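import Mathlib
import Pool.Agent.W2helper47.VK.Stm

/-!
# Piece B of the squad of MP_442c46_al: the lower bound for the area
-/

set_option autoImplicit false
set_option linter.unusedSectionVars false
set_option linter.unusedVariables false

namespace Pool.Agent.W2helper47.VK

open Finset

namespace PB

/-- the sign of a letter -/
def ee (l : Letter) : ℝ := if l.2 then 1 else -1

def cx (l : Letter) : ℝ := match l.1 with
  | Gen.x => ee l
  | _ => 0

def cy (l : Letter) : ℝ := match l.1 with
  | Gen.y => ee l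
  | _ => 0

noncomputable def hg (g : Gen) (a b : ℝ) : ℝ := match g with
  | Gen.x => -(b ^ 2 - b) / 2
  | Gen.y => (a ^ 2 - a) / 2 + |a|
  | Gen.z => a + b

noncomputable def val : Word → ℝ → ℝ → ℝ
  | [], _, _ => 0
  | l :: L, a, b => ee l * hg l.1 a b + val L (a + cx l) (b + cy l)

lemma ee_inv (l : Letter) : ee (inv l) = -ee l := by
  rcases l with ⟨g, s⟩
  cases s <;> simp [ee, inv]

lemma cx_inv (l : Letter) : cx (inv l) = -cx l := by
  rcases l with ⟨g, s⟩
  cases g <;> cases s <;> simp [cx, inv, ee]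

lemma cy_inv (l : Letter) : cy (inv l) = -cy l := by
  rcases l with ⟨g, s⟩
  cases g <;> cases s <;> simp [cy, inv, ee]

lemma sum_val (L : Word) : ∀ (A B : ℕ → ℝ)
    (_ : ∀ k (hk : k + 1 < L.length), A (k + 1) = A k + cx (L[k]'(by omega)))
    (_ : ∀ k (hk : k + 1 < L.length), B (k + 1) = B k + cy (L[k]'(by omega))),
    ∑ i : Fin L.length, ee (L.get i) * hg (L.get i).1 (A i) (B i) = val L (A 0) (B 0) := by
  induction L with
  | nil => intro A B _ _; simp [val]
  | cons l L ih =>
    intro A B hA hB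
    change ∑ i : Fin (L.length + 1), _ = _
    rw [Fin.sum_univ_succ]
    have h1 : ∑ i : Fin L.length, ee ((l :: L).get i.succ) * hg ((l :: L).get i.succ).1
        (A (i.succ : Fin (L.length + 1))) (B (i.succ : Fin (L.length + 1))) =
        ∑ i : Fin L.length, ee (L.get i) * hg (L.get i).1 (A (i + 1)) (B (i + 1)) := by
      refine Finset.sum_congr rfl fun i _ => ?_
      simp only [Fin.val_succ]
      rfl
    have h2 := ih (fun k => A (k + 1)) (fun k => B (k + 1))
      (fun k hk => by
        have := hA (k + 1) (by simp only [List.length_cons]; omega)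
        simpa using this)
      (fun k hk => by
        have := hB (k + 1) (by simp only [List.length_cons]; omega)
        simpa using this)
    change ee l * hg l.1 (A 0) (B 0) + _ = _
    rw [h1, h2]
    rw [val]
    cases L with
    | nil => simp [val]
    | cons l' L' =>
      have h3 := hA 0 (by simp)
      have h4 := hB 0 (by simp)
      simp only [List.getElem_cons_zero, zero_add] at h3 h4
      simp only [zero_add]
      rw [h3, h4]

lemma sum_get (f : Letter → ℝ) (L : Word) : ∑ i : Fin L.length, f (L.get i) = (L.map f).sum := by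
  induction L with
  | nil => simp
  | cons l L ih =>
    change ∑ i : Fin (L.length + 1), _ = _
    rw [Fin.sum_univ_succ, List.map_cons, List.sum_cons, ← ih]
    rfl

lemma rot_val {m : ℕ} (i : Fin m) (h : i.val + 1 < m) : (finRotate m i).val = i.val + 1 := by
  cases m with
  | zero => exact i.elim0
  | succ m =>
    apply coe_finRotate_of_ne_last
    intro h1
    rw [h1] at h
    simp at h

/-- the value of the runs -/
lemma val_rep (g : Gen) (s : Bool) (m : ℕ) : ∀ (L : Word) (a b : ℝ),
    val (List.replicate m (g, s) ++ L) a b =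
      (match g with
        | Gen.x => m * (ee (g, s) * hg g a b) + val L (a + m * ee (g, s)) b
        | Gen.y => m * (ee (g, s) * hg g a b) + val L a (b + m * ee (g, s))
        | Gen.z => m * (ee (g, s) * hg g a b) + val L a b) := by
  induction m with
  | zero => intro L a b; cases g <;> simp
  | succ m ih =>
    intro L a b
    rw [List.replicate_succ, List.cons_append, val]
    rw [ih]
    cases g
    · simp only [cx, cy, hg, add_zero]
      push_cast
      have : a + ee (Gen.x, s) + m * ee (Gen.x, s) = a + (m + 1) * ee (Gen.x, s) := by ring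
      rw [this]; ring
    · simp only [cx, cy, hg, add_zero]
      push_cast
      have : b + ee (Gen.y, s) + m * ee (Gen.y, s) = b + (m + 1) * ee (Gen.y, s) := by ring
      rw [this]; ring
    · simp only [cx, cy, hg, add_zero]
      push_cast
      ring

lemma val_x (s : Bool) (m : ℕ) (L : Word) (a b : ℝ) :
    val (List.replicate m (Gen.x, s) ++ L) a b =
      m * (ee (Gen.x, s) * hg Gen.x a b) + val L (a + m * ee (Gen.x, s)) b :=
  val_rep Gen.x s m L a b

lemma val_y (s : Bool) (m : ℕ) (L : Word) (a b : ℝ) :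
    val (List.replicate m (Gen.y, s) ++ L) a b =
      m * (ee (Gen.y, s) * hg Gen.y a b) + val L a (b + m * ee (Gen.y, s)) :=
  val_rep Gen.y s m L a b

lemma invRev_bw (n : ℕ) : FreeGroup.invRev (bw n) =
    List.replicate n (Gen.y, false) ++ (List.replicate n (Gen.x, true) ++
    (List.replicate (2 * n) (Gen.y, true) ++ (List.replicate n (Gen.x, true) ++
    (List.replicate n (Gen.y, false) ++ (List.replicate (2 * n) (Gen.x, false) ++ []))))) := by
  simp [bw, FreeGroup.invRev]

lemma val_outer (n : ℕ) : val (FreeGroup.invRev (bw n)) (-n) 0 = -(2 * (n : ℝ) ^ 3 + 2 * n ^ 2) := by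
  have hn : (0 : ℝ) ≤ n := Nat.cast_nonneg n
  rw [invRev_bw, val_y, val_x, val_y, val_x, val_y, val_x]
  simp only [ee, hg, val, Bool.false_eq_true, if_false, if_true]
  have h1 : |(-(n : ℝ))| = n := by rw [abs_neg, abs_of_nonneg hn]
  have e1 : (-(n : ℝ) + n * 1) = 0 := by ring
  have e2 : (0 + (n : ℝ) * 1) = n := by ring
  rw [h1, e1, e2, abs_zero, abs_of_nonneg hn]
  push_cast
  ring

lemma sum_outer_x (n : ℕ) : ((FreeGroup.invRev (bw n)).map cx).sum = 0 := by
  rw [invRev_bw]
  simp [cx, ee]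
  ring

lemma sum_outer_y (n : ℕ) : ((FreeGroup.invRev (bw n)).map cy).sum = 0 := by
  rw [invRev_bw]
  simp [cy, ee]
  ring

lemma sum_rel {L : Word} (hL : L ∈ relators) : (L.map cx).sum = 0 ∧ (L.map cy).sum = 0 := by
  rcases hL with rfl | rfl | rfl | rfl | rfl | rfl <;>
    constructor <;> simp [rxy, rxz, ryz, cx, cy, ee, FreeGroup.invRev]

lemma val_rel {L : Word} (hL : L ∈ relators) (a b : ℝ) : val L a b ≤ 1 := by
  have h1 : |a + 1| ≤ |a| + 1 := by
    have := abs_add_le a 1
    rwa [abs_one] at this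
  have h2 : |a| ≤ |a + 1| + 1 := by
    have := abs_add_le (a + 1) (-1)
    rw [abs_neg, abs_one] at this
    have e : a + 1 + -1 = a := by ring
    rwa [e] at this
  rcases hL with rfl | rfl | rfl | rfl | rfl | rfl <;>
    simp [rxy, rxz, ryz, val, cx, cy, ee, hg, FreeGroup.invRev] <;> ring_nf <;> ring_nf at h1 h2 <;>
    linarith

end PB

open PB in
theorem areaLower_of_pot : Pot → AreaLower := by
  intro hPot n hn D
  have hw : bw n ≠ [] := by
    intro h
    have := congrArg List.length h
    simp [bw] at this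
    omega
  have hsum : ∀ (f : Letter → ℝ), ((FreeGroup.invRev (bw n)).map f).sum = 0 →
      (∀ L ∈ relators, (L.map f).sum = 0) → ∀ o, ∑ i, f (lab (bw n) D.rel ⟨o, i⟩) = 0 := by
    intro f h1 h2 o
    change ∑ i : Fin (polyWord (bw n) D.rel o).length, f ((polyWord (bw n) D.rel o).get i) = 0
    rw [sum_get]
    cases o with
    | none => exact h1
    | some f => exact h2 _ (D.rel_mem f)
  obtain ⟨a₀, ha₀⟩ := hPot (bw n) D hw (fun d => cx (lab (bw n) D.rel d))
    (fun d => by rw [D.lab_glue, cx_inv])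
    (hsum cx (sum_outer_x n) (fun L hL => (sum_rel hL).1))
  obtain ⟨b₀, hb₀⟩ := hPot (bw n) D hw (fun d => cy (lab (bw n) D.rel d))
    (fun d => by rw [D.lab_glue, cy_inv])
    (hsum cy (sum_outer_y n) (fun L hL => (sum_rel hL).2))
  -- the first side of the outer polygon
  have hlen : 0 < (polyWord (bw n) D.rel none).length := by
    change 0 < (FreeGroup.invRev (bw n)).length
    rw [FreeGroup.invRev_length]
    exact List.length_pos_of_ne_nil hw
  let d0 : Side (bw n) D.rel := ⟨none, ⟨0, hlen⟩⟩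
  let a : Side (bw n) D.rel → ℝ := fun d => a₀ d - a₀ d0 - n
  let b : Side (bw n) D.rel → ℝ := fun d => b₀ d - b₀ d0
  have ha : ∀ d, a (next (bw n) D.rel d) = a d + cx (lab (bw n) D.rel d) ∧
      a (D.glue d) = a (next (bw n) D.rel d) := by
    intro d
    obtain ⟨h1, h2⟩ := ha₀ d
    simp only [a]
    rw [h2, h1]
    constructor <;> ring
  have hb : ∀ d, b (next (bw n) D.rel d) = b d + cy (lab (bw n) D.rel d) ∧
      b (D.glue d) = b (next (bw n) D.rel d) := by
    intro d
    obtain ⟨h1, h2⟩ := hb₀ d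
    simp only [b]
    rw [h2, h1]
    constructor <;> ring
  let Φ : Side (bw n) D.rel → ℝ := fun d =>
    ee (lab (bw n) D.rel d) * hg (lab (bw n) D.rel d).1 (a d) (b d)
  have hΦ : ∀ d, Φ (D.glue d) = -Φ d := by
    intro d
    simp only [Φ]
    rw [D.lab_glue, ee_inv, (ha d).2, (hb d).2, (ha d).1, (hb d).1]
    rcases hl : lab (bw n) D.rel d with ⟨g, s⟩
    cases g <;> simp [inv, cx, cy, hg]
  have hΦ0 : ∑ d, Φ d = 0 := by
    have h1 : ∑ d, Φ (D.glue d) = ∑ d, Φ d := Equiv.sum_comp D.glue Φ
    have h2 : ∑ d, Φ (D.glue d) = -∑ d, Φ d := by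
      rw [← Finset.sum_neg_distrib]
      exact Finset.sum_congr rfl fun d _ => hΦ d
    linarith
  -- the sums over the polygons
  have hpoly : ∀ (o : Option D.F) (h0 : 0 < (polyWord (bw n) D.rel o).length),
      ∑ i, Φ ⟨o, i⟩ = val (polyWord (bw n) D.rel o) (a ⟨o, ⟨0, h0⟩⟩) (b ⟨o, ⟨0, h0⟩⟩) := by
    intro o h0
    let A : ℕ → ℝ := fun k => if h : k < (polyWord (bw n) D.rel o).length then a ⟨o, ⟨k, h⟩⟩ else 0
    let B : ℕ → ℝ := fun k => if h : k < (polyWord (bw n) D.rel o).length then b ⟨o, ⟨k, h⟩⟩ else 0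
    have hnext : ∀ k (hk : k + 1 < (polyWord (bw n) D.rel o).length),
        next (bw n) D.rel ⟨o, ⟨k, by omega⟩⟩ = ⟨o, ⟨k + 1, hk⟩⟩ := by
      intro k hk
      change (⟨o, finRotate _ ⟨k, _⟩⟩ : Side (bw n) D.rel) = _
      congr 1
      apply Fin.ext
      exact rot_val _ hk
    have h1 := sum_val (polyWord (bw n) D.rel o) A B
      (fun k hk => by
        have h2 := (ha ⟨o, ⟨k, by omega⟩⟩).1
        rw [hnext k hk] at h2
        simp only [A, hk, dif_pos, show k < (polyWord (bw n) D.rel o).length by omega]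
        exact h2)
      (fun k hk => by
        have h2 := (hb ⟨o, ⟨k, by omega⟩⟩).1
        rw [hnext k hk] at h2
        simp only [B, hk, dif_pos, show k < (polyWord (bw n) D.rel o).length by omega]
        exact h2)
    have hA0 : A 0 = a ⟨o, ⟨0, h0⟩⟩ := by simp only [A, h0, dif_pos]
    have hB0 : B 0 = b ⟨o, ⟨0, h0⟩⟩ := by simp only [B, h0, dif_pos]
    rw [hA0, hB0] at h1
    rw [← h1]
    refine Finset.sum_congr rfl fun i _ => ?_
    simp only [A, B, i.2, dif_pos]
    rfl
  have hN : ∑ d, Φ d = ∑ i, Φ ⟨none, i⟩ + ∑ f : D.F, ∑ i, Φ ⟨some f, i⟩ := by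
    rw [Fintype.sum_sigma, Fintype.sum_option]
  have hout : ∑ i, Φ ⟨none, i⟩ = -(2 * (n : ℝ) ^ 3 + 2 * n ^ 2) := by
    rw [hpoly none hlen]
    have e1 : a ⟨none, ⟨0, hlen⟩⟩ = -n := by simp only [a, d0]; ring
    have e2 : b ⟨none, ⟨0, hlen⟩⟩ = 0 := by simp only [b, d0]; ring
    rw [e1, e2]
    exact val_outer n
  have hface : ∀ f : D.F, ∑ i, Φ ⟨some f, i⟩ ≤ 1 := by
    intro f
    have h0 : 0 < (polyWord (bw n) D.rel (some f)).length := by
      change 0 < (D.rel f).length
      rcases D.rel_mem f with h | h | h | h | h | h <;> rw [h] <;>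
        simp [rxy, rxz, ryz, FreeGroup.invRev]
    rw [hpoly (some f) h0]
    exact val_rel (D.rel_mem f) _ _
  have hsumf : ∑ f : D.F, ∑ i, Φ ⟨some f, i⟩ ≤ Fintype.card D.F := by
    calc ∑ f : D.F, ∑ i, Φ ⟨some f, i⟩ ≤ ∑ _f : D.F, (1 : ℝ) := Finset.sum_le_sum fun f _ => hface f
      _ = Fintype.card D.F := by simp
  have hfin : (2 * (n : ℝ) ^ 3 + 2 * n ^ 2) ≤ Fintype.card D.F := by
    rw [hN, hout] at hΦ0
    linarith
  exact_mod_cast hfin

end Pool.Agent.W2helper47.VK
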